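import Mathlib
import Pool.Agent.K1H59.VX.Stm

/-!
# Compactness constants and Vandermonde (T4 of `K1H59/VX`)
-/

set_option autoImplicit false

namespace Pool.Agent.K1H76.VX

open MvPolynomial Pool.Agent.K1H59.VX

theorem exists_min_pos {ι : Type*} [Finite ι] (c : ι → ℝ) (h : ∀ i, 0 < c i) :
    ∃ c0 : ℝ, 0 < c0 ∧ ∀ i, c0 ≤ c i := by
  rcases isEmpty_or_nonempty ι with he | he
  · exact ⟨1, one_pos, fun i => he.elim i⟩
  · obtain ⟨i, hi⟩ := Finite.exists_min c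
    exact ⟨c i, h i, hi⟩

section NC

variable {K : Type} [NontriviallyNormedField K] {n q : ℕ}

theorem continuous_aeval' (p : MvPolynomial (Fin n) ℤ) :
    Continuous fun z : Fin n → K => aeval z p := by
  have h : (fun z : Fin n → K => aeval z p) =
      fun z => eval z (map (algebraMap ℤ K) p) := by
    funext z
    rw [eval_map, aeval_def]
  rw [h]
  exact MvPolynomial.continuous_eval _

theorem lower {S : Set (Fin n → K)} (hS : IsCompact S) (f : (Fin n → K) → ℝ)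
    (hf : Continuous f) (hpos : ∀ z ∈ S, 0 < f z) : ∃ c : ℝ, 0 < c ∧ ∀ z ∈ S, c ≤ f z := by
  rcases S.eq_empty_or_nonempty with h | h
  · exact ⟨1, one_pos, by simp [h]⟩
  · obtain ⟨x, hx, hmin⟩ := hS.exists_isMinOn h hf.continuousOn
    exact ⟨f x, hpos x hx, fun z hz => hmin hz⟩

theorem ann_compact [ProperSpace K] (r : ℝ) :
    IsCompact {z : Fin n → K | r ≤ ‖z‖ ∧ ‖z‖ ≤ 1} := by
  have h : {z : Fin n → K | r ≤ ‖z‖ ∧ ‖z‖ ≤ 1} = {z | r ≤ ‖z‖} ∩ Metric.closedBall 0 1 := by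
    ext z
    simp
  rw [h]
  exact (isCompact_closedBall _ _).inter_left (isClosed_le continuous_const continuous_norm)

theorem part1 (F : Fin q → MvPolynomial (Fin n) ℤ) (hS : SNC F K) (j : Fin q)
    (z : Fin n → K) (hz : z ≠ 0) :
    0 < ‖aeval z (F j)‖ + ∑ i, ‖aeval z (pderiv i (F j))‖ := by
  by_cases h0 : aeval z (F j) = 0
  · have h1 := (hS z hz).ne_zero ⟨j, h0⟩
    obtain ⟨i, hi⟩ := Function.ne_iff.mp h1
    have h2 : 0 < ‖aeval z (pderiv i (F j))‖ := norm_pos_iff.mpr hi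
    have h3 : ‖aeval z (pderiv i (F j))‖ ≤ ∑ i, ‖aeval z (pderiv i (F j))‖ :=
      Finset.single_le_sum (f := fun i => ‖aeval z (pderiv i (F j))‖)
        (fun i _ => norm_nonneg _) (Finset.mem_univ i)
    have h4 : 0 ≤ ‖aeval z (F j)‖ := norm_nonneg _
    linarith
  · have h2 : 0 < ‖aeval z (F j)‖ := norm_pos_iff.mpr h0
    have h3 : 0 ≤ ∑ i, ‖aeval z (pderiv i (F j))‖ := Finset.sum_nonneg fun i _ => norm_nonneg _
    linarith

/-- Euler's identity at a point of the divisor -/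
theorem euler_zero (G : MvPolynomial (Fin n) ℤ) (d : ℕ) (hG : G.IsHomogeneous d)
    (z : Fin n → K) (h0 : aeval z G = 0) : ∑ i, z i * aeval z (pderiv i G) = 0 := by
  have h1 := congrArg (aeval z) hG.sum_X_mul_pderiv
  rw [map_sum] at h1
  simp only [map_mul, aeval_X, map_nsmul, h0, smul_zero] at h1
  exact h1

theorem part2 (F : Fin q → MvPolynomial (Fin n) ℤ) (d : Fin q → ℕ)
    (hF : ∀ j, (F j).IsHomogeneous (d j)) (hS : SNC F K) (J : Finset (Fin q))
    (hJ : J.card = n) (z : Fin n → K) (hz : z ≠ 0) :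
    0 < ∑ j ∈ J, ‖aeval z (F j)‖ := by
  by_contra hcon
  have h0 : ∑ j ∈ J, ‖aeval z (F j)‖ = 0 :=
    le_antisymm (not_lt.mp hcon) (Finset.sum_nonneg fun i _ => norm_nonneg _)
  have h1 : ∀ j ∈ J, aeval z (F j) = 0 := by
    intro j hj
    have := (Finset.sum_eq_zero_iff_of_nonneg (fun i _ => norm_nonneg _)).mp h0 j hj
    exact norm_eq_zero.mp this
  let e : J → {j : Fin q // aeval z (F j) = 0} := fun j => ⟨j.1, h1 j.1 j.2⟩
  have he : Function.Injective e := by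
    intro a b hab
    have := congrArg (fun x : {j : Fin q // aeval z (F j) = 0} => x.1) hab
    exact Subtype.ext this
  have hli := (hS z hz).comp e he
  have hn : 0 < n := by
    rcases Nat.eq_zero_or_pos n with h | h
    · exfalso
      subst h
      exact hz (Subsingleton.elim _ _)
    · exact h
  have hne : Nonempty J := by
    have : 0 < J.card := by omega
    obtain ⟨x, hx⟩ := Finset.card_pos.mp this
    exact ⟨⟨x, hx⟩⟩
  have hspan := hli.span_eq_top_of_card_eq_finrank (by simp [hJ])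
  -- the functional `v ↦ Σ z_i v_i` vanishes
  let φ : (Fin n → K) →ₗ[K] K := ∑ i, (z i) • LinearMap.proj i
  have hφ : ∀ v, φ v = ∑ i, z i * v i := by
    intro v
    simp [φ, LinearMap.sum_apply]
  have hker : (⊤ : Submodule K (Fin n → K)) ≤ LinearMap.ker φ := by
    rw [← hspan, Submodule.span_le]
    rintro _ ⟨j, rfl⟩
    change φ _ = 0
    rw [hφ]
    exact euler_zero (F j.1) (d j.1) (hF j.1) z (h1 j.1 j.2)
  apply hz
  funext i
  have h2 : φ (Pi.single i 1) = 0 := hker (Submodule.mem_top)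
  rw [hφ] at h2
  simpa [Pi.single_apply] using h2

end NC

theorem t_NC : S_NC := by
  intro K _ _ _ n q F d hF hS r hr
  have hcomp : IsCompact {z : Fin n → K | r ≤ ‖z‖ ∧ ‖z‖ ≤ 1} := ann_compact r
  have hnz : ∀ z ∈ {z : Fin n → K | r ≤ ‖z‖ ∧ ‖z‖ ≤ 1}, z ≠ 0 := by
    rintro z ⟨h1, -⟩ rfl
    rw [norm_zero] at h1
    linarith
  have hA : ∀ j : Fin q, ∃ c : ℝ, 0 < c ∧ ∀ z ∈ {z : Fin n → K | r ≤ ‖z‖ ∧ ‖z‖ ≤ 1},
      c ≤ ‖aeval z (F j)‖ + ∑ i, ‖aeval z (pderiv i (F j))‖ := by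
    intro j
    refine lower hcomp _ ?_ fun z hz => part1 F hS j z (hnz z hz)
    exact (continuous_aeval' _).norm.add
      (continuous_finsetSum _ fun i _ => (continuous_aeval' _).norm)
  have hB : ∀ J : {J : Finset (Fin q) // J.card = n}, ∃ c : ℝ, 0 < c ∧
      ∀ z ∈ {z : Fin n → K | r ≤ ‖z‖ ∧ ‖z‖ ≤ 1}, c ≤ ∑ j ∈ J.1, ‖aeval z (F j)‖ := by
    intro J
    refine lower hcomp _ ?_ fun z hz => part2 F d hF hS J.1 J.2 z (hnz z hz)
    exact continuous_finsetSum _ fun i _ => (continuous_aeval' _).norm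
  choose a ha0 ha using hA
  choose b hb0 hb using hB
  obtain ⟨a0, ha00, ha0'⟩ := exists_min_pos a ha0
  obtain ⟨b0, hb00, hb0'⟩ := exists_min_pos b hb0
  have hn1 : (0 : ℝ) < (n : ℝ) + 1 := by positivity
  refine ⟨min a0 b0 / (n + 1), div_pos (lt_min ha00 hb00) hn1, ?_⟩
  intro z hz1 hz2
  set c := min a0 b0 / ((n : ℝ) + 1) with hc
  have hc0 : 0 < c := div_pos (lt_min ha00 hb00) hn1
  have hca : (n + 1) * c ≤ a0 := by
    rw [hc, mul_div_cancel₀ _ hn1.ne']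
    exact min_le_left _ _
  have hcb : (n + 1) * c ≤ b0 := by
    rw [hc, mul_div_cancel₀ _ hn1.ne']
    exact min_le_right _ _
  refine ⟨?_, ?_⟩
  · intro j hj
    by_contra hcon
    push Not at hcon
    have h1 : ∑ i, ‖aeval z (pderiv i (F j))‖ ≤ n * c := by
      calc ∑ i, ‖aeval z (pderiv i (F j))‖ ≤ ∑ _i : Fin n, c :=
            Finset.sum_le_sum fun i _ => (hcon i).le
        _ = n * c := by simp
    have h2 := ha j z ⟨hz1, hz2⟩
    have h3 := ha0' j
    nlinarith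
  · intro J hJ
    by_contra hcon
    push Not at hcon
    have hn : 0 < n := by
      rcases Nat.eq_zero_or_pos n with h | h
      · exfalso
        subst h
        exact hnz z ⟨hz1, hz2⟩ (Subsingleton.elim _ _)
      · exact h
    obtain ⟨J', hJ'1, hJ'2⟩ := Finset.exists_subset_card_eq (show n ≤ J.card by omega)
    have h2 := hb ⟨J', hJ'2⟩ z ⟨hz1, hz2⟩
    have h3 := hb0' ⟨J', hJ'2⟩
    have h1 : ∑ j ∈ J', ‖aeval z (F j)‖ ≤ n * c := by
      calc ∑ j ∈ J', ‖aeval z (F j)‖ ≤ ∑ _i ∈ J', c :=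
            Finset.sum_le_sum fun i hi => (hJ i (hJ'1 hi)).le
        _ = n * c := by simp [hJ'2]
    have h4 : b ⟨J', hJ'2⟩ ≤ ∑ j ∈ J', ‖aeval z (F j)‖ := h2
    nlinarith

theorem t_DIR : S_DIR := by
  intro K _ _ n T c hc
  -- the constant for a tuple of nodes
  let V : (Fin n → Fin (T + 1)) → Matrix (Fin n) (Fin n) K :=
    fun τ => Matrix.vandermonde fun k => ((τ k : ℕ) : K)
  let C : (Fin n → Fin (T + 1)) → ℝ := fun τ => 1 + ∑ i, ∑ k, ‖(V τ)⁻¹ i k‖
  have hC : ∀ τ, 1 ≤ C τ := fun τ =>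
    le_add_of_nonneg_right (Finset.sum_nonneg fun i _ => Finset.sum_nonneg fun k _ => norm_nonneg _)
  obtain ⟨c', hc'0, hc'⟩ := exists_min_pos (fun τ => c / C τ)
    (fun τ => div_pos hc (lt_of_lt_of_le one_pos (hC τ)))
  refine ⟨c', hc'0, ?_⟩
  rintro g ⟨i, hi⟩
  by_contra hcon
  push Not at hcon
  set S := (Finset.range (T + 1)).filter
    (fun t : ℕ => ‖∑ i : Fin n, (t : K) ^ (i : ℕ) * g i‖ < c') with hS
  let e := S.orderEmbOfCardLe hcon
  have he : ∀ k, e k ∈ S := fun k => Finset.orderEmbOfCardLe_mem S hcon k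
  have he1 : ∀ k, e k < T + 1 := fun k =>
    Finset.mem_range.mp (Finset.mem_filter.mp (he k)).1
  have he2 : ∀ k, ‖∑ i : Fin n, ((e k : ℕ) : K) ^ (i : ℕ) * g i‖ < c' := fun k =>
    (Finset.mem_filter.mp (he k)).2
  let τ : Fin n → Fin (T + 1) := fun k => ⟨e k, he1 k⟩
  have hdet : (V τ).det ≠ 0 := by
    refine Matrix.det_vandermonde_ne_zero_iff.mpr ?_
    intro a b hab
    have h0 : ((e a : ℕ) : K) = ((e b : ℕ) : K) := hab
    have h1 : (e a : ℕ) = e b := by exact_mod_cast h0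
    exact e.injective h1
  have hunit : IsUnit (V τ).det := isUnit_iff_ne_zero.mpr hdet
  have hg : g = (V τ)⁻¹.mulVec ((V τ).mulVec g) := by
    rw [Matrix.mulVec_mulVec, Matrix.nonsing_inv_mul _ hunit, Matrix.one_mulVec]
  have hV : ∀ k, ‖(V τ).mulVec g k‖ < c' := by
    intro k
    have : (V τ).mulVec g k = ∑ i : Fin n, ((e k : ℕ) : K) ^ (i : ℕ) * g i := by
      simp only [Matrix.mulVec, dotProduct, V, Matrix.vandermonde_apply, τ]
    rw [this]
    exact he2 k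
  have h1 : ‖g i‖ ≤ (∑ k, ‖(V τ)⁻¹ i k‖) * c' := by
    conv_lhs => rw [hg]
    rw [Matrix.mulVec, dotProduct, Finset.sum_mul]
    refine (norm_sum_le _ _).trans (Finset.sum_le_sum fun k _ => ?_)
    rw [norm_mul]
    exact mul_le_mul_of_nonneg_left (hV k).le (norm_nonneg _)
  have h2 : (∑ k, ‖(V τ)⁻¹ i k‖) ≤ C τ - 1 := by
    have : ∑ k, ‖(V τ)⁻¹ i k‖ ≤ ∑ i, ∑ k, ‖(V τ)⁻¹ i k‖ :=
      Finset.single_le_sum (f := fun i => ∑ k, ‖(V τ)⁻¹ i k‖)
        (fun i _ => Finset.sum_nonneg fun k _ => norm_nonneg _) (Finset.mem_univ i)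
    simp only [C]
    linarith
  have h3 : c' ≤ c / C τ := hc' τ
  have h4 : c' * C τ ≤ c := by
    rwa [le_div_iff₀ (lt_of_lt_of_le one_pos (hC τ))] at h3
  nlinarith [mul_le_mul_of_nonneg_right h2 hc'0.le]

end Pool.Agent.K1H76.VX
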